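import Pool.Agent.N804.WinT

/-!
# The discrepancy of the windows is bounded, and its integrals over translates are bounded

No hypothesis is assumed.
-/

open Filter Topology

namespace Pool.Agent.Results.MP_8958e8_nt.BoundedDiscrepancy

/-- multiplicity of `s` as a zero of the Riemann zeta function (order of vanishing at `s`) -/
noncomputable def zmult (s : ℂ) : ℕ := analyticOrderNatAt riemannZeta s

/-- the nontrivial zeros of `ζ` -/
def ZZ : Set ℂ := {s : ℂ | riemannZeta s = 0 ∧ 0 < s.re ∧ s.re < 1}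

/-- `N(T; α, β)`: the number of ordered pairs of ordinates in `[0, T]`, counted with multiplicity,
with `(γ₁ - γ₂) (log T) / 2π` in `[α, β]` -/
noncomputable def N (T α β : ℝ) : ℕ :=
  ∑ᶠ p ∈ {p : ℂ × ℂ | p.1 ∈ ZZ ∧ p.2 ∈ ZZ ∧ 0 ≤ p.1.im ∧ p.1.im ≤ T ∧ 0 ≤ p.2.im ∧ p.2.im ≤ T ∧
    α ≤ (p.1.im - p.2.im) * Real.log T / (2 * Real.pi) ∧
    (p.1.im - p.2.im) * Real.log T / (2 * Real.pi) ≤ β}, zmult p.1 * zmult p.2

/-- the integral of the pair correlation function over `[α, β]` -/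
noncomputable def IF (α β : ℝ) : ℝ :=
  ∫ u in α..β, (1 - (Real.sin (Real.pi * u) / (Real.pi * u)) ^ 2)

/-- the main term without the integral, `T log T / 2π` -/
noncomputable def X (T : ℝ) : ℝ := T * Real.log T / (2 * Real.pi)

/-- the discrepancy of the window `[α, β]` at height `T` -/
noncomputable def disc (T α β : ℝ) : ℝ := (N T α β : ℝ) / X T - IF α β

/-- There is a constant `K` such that (1) for all `0 < α < β` the discrepancy of the window `[α, β]`
is at most `K` in absolute value for all large `T`; (2) for all `ℓ, A > 0`, the integral over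
`0 < x < A` of the discrepancy of the window `[x, x + ℓ]` is at most `K` in absolute value for all
large `T`. The constant does not depend on the window, on `ℓ` or on `A`. -/
theorem result : ∃ K : ℝ,
    (∀ α β : ℝ, 0 < α → α < β → ∃ T₀ : ℝ, ∀ T : ℝ, T₀ ≤ T → |disc T α β| ≤ K) ∧
    (∀ ℓ A : ℝ, 0 < ℓ → 0 < A → ∃ T₀ : ℝ, ∀ T : ℝ, T₀ ≤ T →
      |∫ x in (0 : ℝ)..A, disc T x (x + ℓ)| ≤ K) := by
  obtain ⟨K₁, hK₁, h1⟩ := N804.win_pt
  obtain ⟨K₂, hK₂, h2⟩ := N804.win_mean
  have hI : ∀ α β, IF α β = N804.PP β - N804.PP α := N804.val_win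
  refine ⟨max K₁ K₂, fun α β hα hβ => ?_, fun ℓ A hℓ hA => ?_⟩
  · obtain ⟨T₁, hT₁, h3⟩ := N804.win_eq' β
    obtain ⟨T₂, hT₂⟩ := eventually_atTop.1 (h1 α β hα hβ)
    refine ⟨max T₁ T₂, fun T hT => ?_⟩
    have e : (N T α β : ℝ) = N804.NW T α β := h3 T ((le_max_left _ _).trans hT) α β hα le_rfl
    have h4 := hT₂ T ((le_max_right _ _).trans hT)
    unfold disc
    rw [e, hI]
    exact h4.trans (le_max_left _ _)
  · obtain ⟨T₁, hT₁, h3⟩ := N804.win_eq' (A + ℓ)
    obtain ⟨T₂, hT₂⟩ := eventually_atTop.1 (h2 ℓ A hℓ hA)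
    refine ⟨max T₁ T₂, fun T hT => ?_⟩
    have h4 := hT₂ T ((le_max_right _ _).trans hT)
    refine le_trans (le_of_eq ?_) (h4.trans (le_max_right _ _))
    congr 1
    refine intervalIntegral.integral_congr_ae (MeasureTheory.ae_of_all _ fun x hx => ?_)
    rw [Set.uIoc_of_le hA.le] at hx
    have e : (N T x (x + ℓ) : ℝ) = N804.NW T x (x + ℓ) :=
      h3 T ((le_max_left _ _).trans hT) x (x + ℓ) hx.1 (by linarith [hx.2])
    unfold disc
    rw [e, hI]
    rfl

end Pool.Agent.Results.MP_8958e8_nt.BoundedDiscrepancy
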