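import Pool.Agent.N802.NV.Fin

/-!
# The number variance of the zeros of zeta in every weight `|R|²`

Unconditionally, for every `0 < θ < 1 / 2` there is `C` such that for every `B`, all large `T`,
all `N ≥ 1`, all `K` with `N T ^ (1 / 2 + θ) ≤ K ≤ T / 2`, every Dirichlet polynomial
`R(t) = ∑ r(n) n ^ (- i t)` over integers `n ≤ N` with arbitrary complex coefficients and all
`- B ≤ u < v ≤ B`:

`∑ |R(γ)|² (n(γ) - (v - u))² ≤ C (1 + log (1 + (v - u)) + ((v - u) log N / log T)²) M`,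

where `γ` runs over the ordinates in `(T, T + K]` with multiplicity, `M = K log T ∑ |r(n)|²` and
`n(γ)` is the number of zeros (on or off the critical line, with multiplicity) whose ordinates are
in `[γ + 2 π u / log T, γ + 2 π v / log T]`.
-/

open Filter Topology Complex

namespace Pool.Agent.Results.MP_8958e8_nt.NumberVarianceEveryWeight

/-- the zeros of zeta in the open critical strip with ordinates in `(T₁, T₂]` -/
def zeros (T₁ T₂ : ℝ) : Set ℂ :=
  {s : ℂ | riemannZeta s = 0 ∧ 0 < s.re ∧ s.re < 1 ∧ T₁ < s.im ∧ s.im ≤ T₂}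

/-- the multiplicity of a zero of zeta -/
noncomputable def mult (s : ℂ) : ℕ := analyticOrderNatAt riemannZeta s

/-- the zeros of zeta in the open critical strip with ordinates in `[a, b]` -/
def window (a b : ℝ) : Set ℂ :=
  {s : ℂ | riemannZeta s = 0 ∧ 0 < s.re ∧ s.re < 1 ∧ a ≤ s.im ∧ s.im ≤ b}

/-- the number of these zeros, counted with multiplicity -/
noncomputable def number (a b : ℝ) : ℕ := ∑ᶠ s ∈ window a b, mult s

/-- the number of zeros, counted with multiplicity, whose ordinates are in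
`[t + 2 π u / log T, t + 2 π v / log T]` -/
noncomputable def count (T u v t : ℝ) : ℕ :=
  number (t + 2 * Real.pi * u / Real.log T) (t + 2 * Real.pi * v / Real.log T)

/-- the Dirichlet polynomial `∑ r(n) n ^ (- i t)`, `n` in `S` -/
noncomputable def R (S : Finset ℕ) (r : ℕ → ℂ) (t : ℝ) : ℂ :=
  ∑ n ∈ S, r n * (n : ℂ) ^ (-(I * t))

lemma zeros_eq {T₁ T₂ : ℝ} (h : 1 ≤ T₁) : zeros T₁ T₂ = (H370.Zf riemannZeta T₁ T₂ : Set ℂ) := by
  ext s
  rw [Finset.mem_coe, H370.mem_Zf H370.good_zeta h]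
  unfold zeros H370.zset
  simp only [Set.mem_ofPred_eq]
  tauto

open Classical in
lemma window_eq {T₁ T₂ a b h t : ℝ} (h1 : 1 ≤ T₁) (h2 : T₁ < a) (h3 : b ≤ T₂) (ha : a = t - h)
    (hb : b = t + h) : window a b =
    ((H370.Zf riemannZeta T₁ T₂).filter (fun s => |s.im - t| ≤ h) : Finset ℂ) := by
  ext s
  rw [Finset.mem_coe, Finset.mem_filter, H370.mem_Zf H370.good_zeta h1]
  unfold window H370.zset
  simp only [Set.mem_ofPred_eq]
  rw [abs_le]
  constructor
  · rintro ⟨x, y, z, d, e⟩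
    exact ⟨⟨y, z, by linarith, by linarith, x⟩, by linarith, by linarith⟩
  · rintro ⟨⟨y, z, _, _, x⟩, d, e⟩
    exact ⟨x, y, z, by linarith, by linarith⟩

/-- the sets of zeros are finite -/
theorem zeros_finite (T₁ T₂ : ℝ) (h : 1 ≤ T₁) : (zeros T₁ T₂).Finite := by
  rw [zeros_eq h]
  exact Finset.finite_toSet _

/-- the sets of zeros in the windows are finite -/
theorem window_finite (a b : ℝ) (h1 : 1 < a) : (window a b).Finite := by
  classical
  rw [window_eq (T₁ := 1) (T₂ := b) (t := (a + b) / 2) (h := (b - a) / 2) le_rfl h1 le_rfl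
    (by ring) (by ring)]
  exact Finset.finite_toSet _

lemma count_eq {T T₁ T₂ u v t : ℝ} (h1 : 1 ≤ T₁)
    (h2 : T₁ < t + 2 * Real.pi * u / Real.log T) (h3 : t + 2 * Real.pi * v / Real.log T ≤ T₂) :
    (count T u v t : ℝ) = N802.U.na riemannZeta T₁ T₂ (Real.pi * (v - u) / Real.log T)
      (t + Real.pi * (u + v) / Real.log T) := by
  classical
  unfold count number N802.U.na
  rw [window_eq h1 h2 h3 (t := t + Real.pi * (u + v) / Real.log T)
    (h := Real.pi * (v - u) / Real.log T) (by ring) (by ring), finsum_mem_coe_finset]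
  push_cast
  rfl

lemma R_eq {S : Finset ℕ} {N : ℝ} (hS : ∀ n ∈ S, 1 ≤ n ∧ (n : ℝ) ≤ N) (r : ℕ → ℂ) (t : ℝ) :
    R S r t = N802.RP S r t := by
  unfold R N802.RP N802.TP
  refine Finset.sum_congr rfl fun n hn => ?_
  have hn0 : (n : ℂ) ≠ 0 := by
    have := (hS n hn).1
    exact_mod_cast (by omega : n ≠ 0)
  congr 1
  unfold N802.mn
  rw [Complex.cpow_def_of_ne_zero hn0, ← Complex.natCast_log]
  congr 1
  rw [Nat.cast_one, Real.log_one]
  push_cast
  ring

theorem result : ∀ θ : ℝ, 0 < θ → θ < 1 / 2 → ∃ C : ℝ, 0 < C ∧ ∀ B : ℝ, 0 < B →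
    ∃ T₀ : ℝ, ∀ T : ℝ, T₀ ≤ T → ∀ N K : ℝ, 1 ≤ N → N * T ^ (1 / 2 + θ) ≤ K → K ≤ T / 2 →
    ∀ S : Finset ℕ, (∀ n ∈ S, 1 ≤ n ∧ (n : ℝ) ≤ N) → ∀ (r : ℕ → ℂ) (u v : ℝ),
    -B ≤ u → u < v → v ≤ B →
    ∑ᶠ s ∈ zeros T (T + K), (mult s : ℝ) * ‖R S r s.im‖ ^ 2 *
      ((count T u v s.im : ℝ) - (v - u)) ^ 2 ≤
      C * (1 + Real.log (1 + (v - u)) + ((v - u) * (Real.log N / Real.log T)) ^ 2) *
        (K * Real.log T * ∑ n ∈ S, ‖r n‖ ^ 2) := by
  classical
  intro θ hθ hθ1
  obtain ⟨C, hC, h⟩ := N802.NV.nv_zeta θ hθ hθ1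
  refine ⟨C, hC, fun B hB => ?_⟩
  obtain ⟨T0, hT0, h⟩ := h B hB
  refine ⟨max T0 (Real.exp (4 * Real.pi * B)), fun T hT' N K hN hK1 hK2 S hS r u v hu huv hv => ?_⟩
  have hT : T0 ≤ T := (le_max_left _ _).trans hT'
  have hT1 : 1 ≤ T := by linarith
  have hLB : 4 * Real.pi * B ≤ Real.log T := by
    rw [Real.le_log_iff_exp_le (by linarith)]
    exact (le_max_right _ _).trans hT'
  have hpi := Real.pi_pos
  have hB0 : 0 < 4 * Real.pi * B := by positivity
  have hL0 : 0 < Real.log T := by linarith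
  have hw : ∀ y : ℝ, |y| ≤ B → |2 * Real.pi * y / Real.log T| ≤ 1 / 2 := by
    intro y hy
    rw [abs_div, abs_of_pos hL0, abs_mul, abs_of_pos (by positivity : (0 : ℝ) < 2 * Real.pi),
      div_le_iff₀ hL0]
    have := mul_le_mul_of_nonneg_left hy (by positivity : (0 : ℝ) ≤ 2 * Real.pi)
    linarith
  have hu' := abs_le.1 (hw u (abs_le.2 ⟨hu, by linarith⟩))
  have hv' := abs_le.1 (hw v (abs_le.2 ⟨by linarith, hv⟩))
  have h1 := h T hT N K hN hK1 hK2 S hS r u v hu huv hv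
  have hc : ∀ s ∈ H370.Zf riemannZeta T (T + K), (count T u v s.im : ℝ) =
      N802.U.na riemannZeta (T - 1) (T + K + 1) (Real.pi * (v - u) / Real.log T)
      (s.im + Real.pi * (u + v) / Real.log T) := by
    intro s hs
    rw [H370.mem_Zf H370.good_zeta hT1] at hs
    obtain ⟨-, -, h2, h3, -⟩ := hs
    exact count_eq (by linarith) (by linarith [hu'.1]) (by linarith [hv'.2])
  refine le_trans (le_of_eq ?_) h1
  rw [zeros_eq hT1, finsum_mem_coe_finset]
  refine Finset.sum_congr rfl fun s hs => ?_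
  rw [R_eq hS, hc s hs]
  rfl

end Pool.Agent.Results.MP_8958e8_nt.NumberVarianceEveryWeight
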