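import Pool.Agent.N804.One

/-!
# Windows of one length

The conjecture in the mean for the windows of a single length `ℓ` (together with: almost all zeros
are on the critical line) is equivalent to one of its halves at large distances, and it implies the
conjecture for all windows up to an error `2 ∫₀^{ℓ/2} F ≤ π² ℓ³ / 36`.
-/

open Filter Topology

namespace Pool.Agent.Results.MP_8958e8_nt.OneWindowLength

/-- multiplicity of `s` as a zero of the Riemann zeta function (order of vanishing at `s`) -/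
noncomputable def zmult (s : ℂ) : ℕ := analyticOrderNatAt riemannZeta s

/-- the nontrivial zeros of `ζ` -/
def ZZ : Set ℂ := {s : ℂ | riemannZeta s = 0 ∧ 0 < s.re ∧ s.re < 1}

/-- `N(T; α, β)`: the number of ordered pairs of ordinates in `[0, T]`, counted with multiplicity,
with `(γ₁ - γ₂) (log T) / 2π` in `[α, β]` -/
noncomputable def N (T α β : ℝ) : ℕ :=
  ∑ᶠ p ∈ {p : ℂ × ℂ | p.1 ∈ ZZ ∧ p.2 ∈ ZZ ∧ 0 ≤ p.1.im ∧ p.1.im ≤ T ∧ 0 ≤ p.2.im ∧ p.2.im ≤ T ∧
    α ≤ (p.1.im - p.2.im) * Real.log T / (2 * Real.pi) ∧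
    (p.1.im - p.2.im) * Real.log T / (2 * Real.pi) ≤ β}, zmult p.1 * zmult p.2

/-- the number of zeros off the critical line with ordinate in `(0, T]`, with multiplicity -/
noncomputable def Noff (T : ℝ) : ℕ :=
  ∑ᶠ s ∈ {s : ℂ | s ∈ ZZ ∧ 0 < s.im ∧ s.im ≤ T ∧ s.re ≠ 1 / 2}, zmult s

/-- the number of zeros with ordinate in `(0, T]`, counted with multiplicity, that are off the
critical line or multiple -/
noncomputable def Nbad (T : ℝ) : ℕ :=
  ∑ᶠ s ∈ {s : ℂ | s ∈ ZZ ∧ 0 < s.im ∧ s.im ≤ T ∧ (s.re ≠ 1 / 2 ∨ zmult s ≠ 1)}, zmult s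

/-- the integral of the pair correlation function over `[α, β]` -/
noncomputable def IF (α β : ℝ) : ℝ :=
  ∫ u in α..β, (1 - (Real.sin (Real.pi * u) / (Real.pi * u)) ^ 2)

/-- the main term without the integral, `T log T / 2π` -/
noncomputable def X (T : ℝ) : ℝ := T * Real.log T / (2 * Real.pi)

/-- the discrepancy of the window `[α, β]` at height `T` -/
noncomputable def disc (T α β : ℝ) : ℝ := (N T α β : ℝ) / X T - IF α β

/-- the number of points of `Λ` in `(0, a]` -/
noncomputable def count (Λ : Set ℝ) (a : ℝ) : ℕ := (Λ ∩ Set.Ioc 0 a).ncard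

/-- at most `d L + C` points of `Λ` in every interval of length `L` of the positive half-line -/
def Sparse (Λ : Set ℝ) (d C : ℝ) : Prop := ∀ x L : ℝ, 0 ≤ x → 0 ≤ L →
  (Λ ∩ Set.Icc x (x + L)).Finite ∧ ((Λ ∩ Set.Icc x (x + L)).ncard : ℝ) ≤ d * L + C

/-- the conjecture in the mean for the windows of length `ℓ`:
`∫₀ᴬ |disc T x (x + ℓ)| dx → 0` for every `A` -/
def Mean (l : Filter ℝ) (ℓ : ℝ) : Prop :=
  ∀ A : ℝ, 0 < A → Tendsto (fun T : ℝ => ∫ x in (0 : ℝ)..A, |disc T x (x + ℓ)|) l (𝓝 0)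

/-- one of the two halves of the conjecture in the mean, for the windows of length `ℓ` at large
distances, up to an exponentially small loss: for some `K`, `R`, `c > 0` and all `v > u ≥ R` with no
point of `Λ` in `(u, v]`, the integral of `disc T x (x + ℓ)` over `(u, v)` has
`liminf ≥ -K exp(-c u) (v - u)` if `count Λ u` is even, and `limsup ≤ K exp(-c u) (v - u)` if it
is odd -/
def HalfMean (l : Filter ℝ) (Λ : Set ℝ) (ℓ : ℝ) : Prop :=
  ∃ K c R : ℝ, 0 < c ∧ ∀ u v : ℝ, R ≤ u → 0 < u → u < v → count Λ v = count Λ u →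
    ∀ ε : ℝ, 0 < ε → ∀ᶠ T : ℝ in l,
    (Even (count Λ u) →
      -(K * Real.exp (-(c * u)) * (v - u)) - ε ≤ ∫ x in u..v, disc T x (x + ℓ)) ∧
    (Odd (count Λ u) →
      ∫ x in u..v, disc T x (x + ℓ) ≤ K * Real.exp (-(c * u)) * (v - u) + ε)

/-- Let `ℓ > 0`, let `Λ` be a set with at most `d L + C` points in every interval of length `L`,
where `d < 4/3` (for instance empty, or with one point), and let `l` be `T → ∞`, or more generally
a countably generated filter contained in it. Then: (1) almost all zeros are on the critical line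
and the conjecture holds in the mean for the windows of length `ℓ` if and only if almost all zeros
are on the critical line and the half of it prescribed by `Λ` holds for the far windows of length
`ℓ` (`HalfMean`). (2) In this case, for all `0 < α < β`,
`limsup |N(T; α, β) / X(T) - ∫_α^β F| ≤ 2 ∫₀^{ℓ/2} F`, and the proportion of the zeros that are
multiple or off the line has `limsup` at most `2 ∫₀^{ℓ/2} F`; (3) `2 ∫₀^{ℓ/2} F ≤ π² ℓ³ / 36`. -/
theorem result (ℓ : ℝ) (hℓ : 0 < ℓ) (Λ : Set ℝ) (d C : ℝ) (hd : d < 4 / 3) (hΛ : Sparse Λ d C)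
    (l : Filter ℝ) (hl : l ≤ atTop) (hg : l.IsCountablyGenerated) :
    ((Tendsto (fun T : ℝ => (Noff T : ℝ) / X T) l (𝓝 0) ∧ Mean l ℓ) ↔
      (Tendsto (fun T : ℝ => (Noff T : ℝ) / X T) l (𝓝 0) ∧ HalfMean l Λ ℓ)) ∧
    (Tendsto (fun T : ℝ => (Noff T : ℝ) / X T) l (𝓝 0) → Mean l ℓ →
      (∀ α β : ℝ, 0 < α → α < β → ∀ ε : ℝ, 0 < ε → ∀ᶠ T : ℝ in l,
        |(N T α β : ℝ) / X T - IF α β| ≤ 2 * IF 0 (ℓ / 2) + ε) ∧
      (∀ ε : ℝ, 0 < ε → ∀ᶠ T : ℝ in l, (Nbad T : ℝ) / X T ≤ 2 * IF 0 (ℓ / 2) + ε)) ∧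
    2 * IF 0 (ℓ / 2) ≤ Real.pi ^ 2 * ℓ ^ 3 / 36 := by
  have hI : ∀ α β, IF α β = N804.PP β - N804.PP α := N804.val_win
  have hI0 : IF 0 (ℓ / 2) = N804.PP (ℓ / 2) := by
    rw [hI, N804.PP_zero, sub_zero]
  have hN : ∀ b : ℝ, ∀ᶠ T : ℝ in l, ∀ α β : ℝ, 0 < α → β ≤ b →
      (N T α β : ℝ) / X T = N804.NW T α β / N804.XX T := by
    intro b
    obtain ⟨T₀, hT₀, h⟩ := N804.win_eq' b
    filter_upwards [hl (eventually_ge_atTop T₀)] with T hT α β hα hβ
    have e : (N T α β : ℝ) = N804.NW T α β := h T hT α β hα hβ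
    rw [e]
    rfl
  have hO : ∀ᶠ T : ℝ in l, (Noff T : ℝ) / X T = N804.OF T := by
    filter_upwards [hl (eventually_gt_atTop 1)] with T hT
    have e : (Noff T : ℝ) = N804.OF T * N804.XX T := N804.noff_eq hT
    have eX : X T = N804.XX T := rfl
    rw [e, eX, mul_div_cancel_right₀ _ (N804.XX_pos hT).ne']
  have hB : ∀ᶠ T : ℝ in l, (Nbad T : ℝ) / X T = N804.BF T := by
    filter_upwards [hl (eventually_gt_atTop 1)] with T hT
    have e : (Nbad T : ℝ) = N804.BF T * N804.XX T := N804.nbad_eq hT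
    have eX : X T = N804.XX T := rfl
    rw [e, eX, mul_div_cancel_right₀ _ (N804.XX_pos hT).ne']
  have hcn : ∀ a, N804.cn Λ a = count Λ a := fun _ => rfl
  -- the integrals
  have hint : ∀ u v : ℝ, 0 ≤ u → u < v → ∀ᶠ T : ℝ in l, ∫ x in u..v, disc T x (x + ℓ) =
      ∫ x in u..v, (N804.NW T x (x + ℓ) / N804.XX T - (N804.PP (x + ℓ) - N804.PP x)) := by
    intro u v hu huv
    filter_upwards [hN (v + ℓ)] with T hT
    refine intervalIntegral.integral_congr_ae (MeasureTheory.ae_of_all _ fun x hx => ?_)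
    rw [Set.uIoc_of_le huv.le] at hx
    have hx0 : 0 < x := lt_of_le_of_lt hu hx.1
    unfold disc
    rw [hT x (x + ℓ) hx0 (by linarith [hx.2]), hI]
  have hinta : ∀ A : ℝ, 0 < A → ∀ᶠ T : ℝ in l, ∫ x in (0 : ℝ)..A, |disc T x (x + ℓ)| =
      ∫ x in (0 : ℝ)..A,
        |N804.NW T x (x + ℓ) / N804.XX T - (N804.PP (x + ℓ) - N804.PP x)| := by
    intro A hA
    filter_upwards [hN (A + ℓ)] with T hT
    refine intervalIntegral.integral_congr_ae (MeasureTheory.ae_of_all _ fun x hx => ?_)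
    rw [Set.uIoc_of_le hA.le] at hx
    unfold disc
    rw [hT x (x + ℓ) hx.1 (by linarith [hx.2]), hI]
  -- from the mean to the internal form
  have hmean : Mean l ℓ → N804.WBm l ℓ Λ 0 1 1 := by
    intro h
    refine N804.WBm_of_mean hl hℓ Λ fun A hA => (h A hA).congr' ?_
    exact hinta A hA
  have hhalf : HalfMean l Λ ℓ → ∃ K c R : ℝ, 0 < c ∧ N804.WBm l ℓ Λ K c R := by
    rintro ⟨K, c, R, hc, h⟩
    refine ⟨K, c, R, hc, fun u v hR hu huv hcnt ε hε => ?_⟩
    rw [hcn, hcn] at hcnt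
    filter_upwards [h u v hR hu huv hcnt ε hε, hint u v hu.le huv] with T h1 h2
    rw [h2] at h1
    rw [hcn]
    rcases Nat.even_or_odd (count Λ u) with he | ho
    · rw [he.neg_one_pow, one_mul]
      linarith [h1.1 he]
    · rw [ho.neg_one_pow]
      linarith [h1.2 ho]
  refine ⟨⟨?_, ?_⟩, ?_, ?_⟩
  · rintro ⟨h0, h⟩
    refine ⟨h0, 0, 1, 1, one_pos, fun u v hR hu huv hcnt ε hε => ?_⟩
    have hW := hmean h u v hR hu huv hcnt ε hε
    have hW2 := N804.WBm_of_mean hl hℓ ({(u / 2)} : Set ℝ) (fun A hA => (h A hA).congr'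
      (hinta A hA)) u v hR hu huv (by
        unfold N804.cn
        congr 1
        ext z
        simp only [Set.mem_inter_iff, Set.mem_singleton_iff, Set.mem_Ioc]
        constructor
        · rintro ⟨rfl, h2⟩
          exact ⟨rfl, h2.1, by linarith⟩
        · rintro ⟨rfl, h2⟩
          exact ⟨rfl, h2.1, by linarith⟩) ε hε
    have hW3 := N804.WBm_of_mean hl hℓ (∅ : Set ℝ) (fun A hA => (h A hA).congr'
      (hinta A hA)) u v hR hu huv (by simp [N804.cn]) ε hε
    have c1 : N804.cn ({(u / 2)} : Set ℝ) u = 1 := by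
      unfold N804.cn
      rw [Set.inter_eq_left.2 (by
        intro z hz
        rw [Set.mem_singleton_iff] at hz
        rw [hz]
        exact ⟨by positivity, by linarith⟩)]
      exact Set.ncard_singleton _
    have c2 : N804.cn (∅ : Set ℝ) u = 0 := by simp [N804.cn]
    rw [c1] at hW2
    rw [c2] at hW3
    filter_upwards [hW2, hW3, hint u v hu.le huv] with T h1 h2 h3
    rw [h3]
    rw [pow_one, zero_mul, zero_mul] at h1
    rw [pow_zero, zero_mul, zero_mul] at h2
    rw [zero_mul, zero_mul]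
    exact ⟨fun _ => by linarith, fun _ => by linarith⟩
  · rintro ⟨h0, h⟩
    obtain ⟨K, c, R, hc, hW⟩ := hhalf h
    refine ⟨h0, fun A hA => ?_⟩
    refine (N804.one_mean hl hℓ (h0.congr' hO) hd hΛ hc hW hA).congr' ?_
    filter_upwards [hinta A hA] with T hT
    exact hT.symm
  · intro h0 h
    have h0' : Tendsto N804.OF l (𝓝 0) := h0.congr' hO
    have hW := hmean h
    refine ⟨fun α β hα hβ ε hε => ?_, fun ε hε => ?_⟩
    · filter_upwards [N804.one_win hl hℓ h0' hd hΛ one_pos hW hα hβ hε, hN β] with T h1 h2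
      rw [h2 α β hα le_rfl, hI, hI0]
      exact h1
    · filter_upwards [N804.one_bad hl hℓ h0' hd hΛ one_pos hW hε, hB] with T h1 h2
      rw [h2, hI0]
      exact h1
  · rw [hI0]
    have := N804.PP_cubic (show 0 ≤ ℓ / 2 by positivity)
    have e : Real.pi ^ 2 * (ℓ / 2) ^ 3 / 9 = Real.pi ^ 2 * ℓ ^ 3 / 36 / 2 := by ring
    rw [e] at this
    linarith

end Pool.Agent.Results.MP_8958e8_nt.OneWindowLength
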