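import Pool.Agent.N804.WinF

/-!
# Windows of two lengths at large distances

If almost all zeros are on the critical line, then the conjecture for all windows follows from
one-sided bounds (upper or lower, by a prescribed rule) for the windows of two lengths, with
irrational ratio, at large distances.
-/

open Filter Topology

namespace Pool.Agent.Results.MP_8958e8_nt.TwoWindowLengths

/-- multiplicity of `s` as a zero of the Riemann zeta function (order of vanishing at `s`) -/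
noncomputable def zmult (s : ℂ) : ℕ := analyticOrderNatAt riemannZeta s

/-- the nontrivial zeros of `ζ` -/
def ZZ : Set ℂ := {s : ℂ | riemannZeta s = 0 ∧ 0 < s.re ∧ s.re < 1}

/-- `N(T; α, β)`: the number of ordered pairs of ordinates in `[0, T]`, counted with multiplicity,
with `(γ₁ - γ₂) (log T) / 2π` in `[α, β]` -/
noncomputable def N (T α β : ℝ) : ℕ :=
  ∑ᶠ p ∈ {p : ℂ × ℂ | p.1 ∈ ZZ ∧ p.2 ∈ ZZ ∧ 0 ≤ p.1.im ∧ p.1.im ≤ T ∧ 0 ≤ p.2.im ∧ p.2.im ≤ T ∧
    α ≤ (p.1.im - p.2.im) * Real.log T / (2 * Real.pi) ∧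
    (p.1.im - p.2.im) * Real.log T / (2 * Real.pi) ≤ β}, zmult p.1 * zmult p.2

/-- the number of zeros off the critical line with ordinate in `(0, T]`, with multiplicity -/
noncomputable def Noff (T : ℝ) : ℕ :=
  ∑ᶠ s ∈ {s : ℂ | s ∈ ZZ ∧ 0 < s.im ∧ s.im ≤ T ∧ s.re ≠ 1 / 2}, zmult s

/-- the integral of the pair correlation function over `[α, β]` -/
noncomputable def IF (α β : ℝ) : ℝ :=
  ∫ u in α..β, (1 - (Real.sin (Real.pi * u) / (Real.pi * u)) ^ 2)

/-- the main term without the integral, `T log T / 2π` -/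
noncomputable def X (T : ℝ) : ℝ := T * Real.log T / (2 * Real.pi)

/-- the number of points of `Λ` in `(0, a]` -/
noncomputable def count (Λ : Set ℝ) (a : ℝ) : ℕ := (Λ ∩ Set.Ioc 0 a).ncard

/-- at most `d L + C` points of `Λ` in every interval of length `L` of the positive half-line -/
def Sparse (Λ : Set ℝ) (d C : ℝ) : Prop := ∀ x L : ℝ, 0 ≤ x → 0 ≤ L →
  (Λ ∩ Set.Icc x (x + L)).Finite ∧ ((Λ ∩ Set.Icc x (x + L)).ncard : ℝ) ≤ d * L + C

/-- one of the two halves of the conjecture for the windows `[α, α + ℓ]` at large distances, up to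
an exponentially small loss: for some `K`, `R`, `c > 0` and all `α ≥ R`,
`liminf N(T; α, α + ℓ) / X(T) ≥ ∫ F - K exp(-c α)` if `count Λ α` is even, and
`limsup N(T; α, α + ℓ) / X(T) ≤ ∫ F + K exp(-c α)` if it is odd -/
def Half (l : Filter ℝ) (Λ : Set ℝ) (ℓ : ℝ) : Prop :=
  ∃ K c R : ℝ, 0 < c ∧ ∀ α : ℝ, R ≤ α → 0 < α → ∀ ε : ℝ, 0 < ε → ∀ᶠ T : ℝ in l,
    (Even (count Λ α) →
      IF α (α + ℓ) - K * Real.exp (-(c * α)) - ε ≤ (N T α (α + ℓ) : ℝ) / X T) ∧
    (Odd (count Λ α) →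
      (N T α (α + ℓ) : ℝ) / X T ≤ IF α (α + ℓ) + K * Real.exp (-(c * α)) + ε)

/-- Let `ℓ₁, ℓ₂ > 0` have irrational ratio, and let `Λ₁, Λ₂` be two sets with at most `d L + C`
points in every interval of length `L`, where `d < 4/3` (for instance empty, or with one point). Let
`l` be `T → ∞`, or more generally a countably generated filter contained in it. The conjecture
along `l`, that is `N(T; α, β) ∼ X(T) ∫_α^β F` for all `0 < α < β`, holds if and only if almost all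
zeros are on the critical line and, for `i = 1, 2`, the windows `[α, α + ℓᵢ]` with `α ≥ R` satisfy
the lower half of the conjecture where `count Λᵢ α` is even, and the upper half where it is odd, up
to `K exp(-c α)`. -/
theorem result (ℓ₁ ℓ₂ : ℝ) (h₁ : 0 < ℓ₁) (h₂ : 0 < ℓ₂) (hirr : Irrational (ℓ₁ / ℓ₂))
    (Λ₁ Λ₂ : Set ℝ) (d C : ℝ) (hd : d < 4 / 3) (hΛ₁ : Sparse Λ₁ d C) (hΛ₂ : Sparse Λ₂ d C)
    (l : Filter ℝ) (hl : l ≤ atTop) (hg : l.IsCountablyGenerated) :
    (∀ α β : ℝ, 0 < α → α < β →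
      Tendsto (fun T : ℝ => (N T α β : ℝ) / (X T * IF α β)) l (𝓝 1)) ↔
    (Tendsto (fun T : ℝ => (Noff T : ℝ) / X T) l (𝓝 0) ∧ Half l Λ₁ ℓ₁ ∧ Half l Λ₂ ℓ₂) := by
  have hI : ∀ α β, IF α β = N804.PP β - N804.PP α := N804.val_win
  have hN : ∀ α β : ℝ, 0 < α → ∀ᶠ T : ℝ in l, (N T α β : ℝ) / X T = N804.NW T α β / N804.XX T := by
    intro α β hα
    obtain ⟨T₀, hT₀, h⟩ := N804.win_eq hα β
    filter_upwards [hl (eventually_ge_atTop T₀)] with T hT
    have e : (N T α β : ℝ) = N804.NW T α β := h T hT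
    rw [e]
    rfl
  have hO : ∀ᶠ T : ℝ in l, (Noff T : ℝ) / X T = N804.OF T := by
    filter_upwards [hl (eventually_gt_atTop 1)] with T hT
    have e : (Noff T : ℝ) = N804.OF T * N804.XX T := N804.noff_eq hT
    have eX : X T = N804.XX T := rfl
    rw [e, eX, mul_div_cancel_right₀ _ (N804.XX_pos hT).ne']
  constructor
  · intro h
    have h1 : ∀ α β : ℝ, 0 < α → α < β →
        Tendsto (fun T => N804.NW T α β / N804.XX T) l (𝓝 (N804.PP β - N804.PP α)) := by
      intro α β hα hβ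
      have hpos := N804.PP_strict hα.le hβ
      have h2 := (h α β hα hβ).mul_const (N804.PP β - N804.PP α)
      rw [one_mul] at h2
      refine h2.congr' ?_
      filter_upwards [hN α β hα] with T hT
      rw [← hT, hI, ← div_div, div_mul_cancel₀ _ hpos.ne']
    obtain ⟨h2, h3⟩ := N804.win_exact' hl h1
    have hHalf : ∀ (Λ : Set ℝ) (ℓ : ℝ), 0 < ℓ → Half l Λ ℓ := by
      intro Λ ℓ hℓ
      refine ⟨0, 1, 1, one_pos, fun α _ hα ε hε => ?_⟩
      have h4 := h1 α (α + ℓ) hα (by linarith)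
      filter_upwards [hN α (α + ℓ) hα, (tendsto_order.1 h4).1 _
        (show N804.PP (α + ℓ) - N804.PP α - ε < _ by linarith), (tendsto_order.1 h4).2 _
        (show _ < N804.PP (α + ℓ) - N804.PP α + ε by linarith)] with T g1 g2 g3
      rw [g1, hI, zero_mul]
      exact ⟨fun _ => by linarith, fun _ => by linarith⟩
    refine ⟨?_, hHalf Λ₁ ℓ₁ h₁, hHalf Λ₂ ℓ₂ h₂⟩
    refine (N804.OF_of_BF' hl h3).congr' ?_
    filter_upwards [hO] with T hT
    exact hT.symm
  · rintro ⟨h0, ⟨K₁, c₁, R₁, hc₁, hH₁⟩, K₂, c₂, R₂, hc₂, hH₂⟩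
    have h0' : Tendsto N804.OF l (𝓝 0) := h0.congr' hO
    have hW : ∀ (Λ : Set ℝ) (ℓ K c R : ℝ), (∀ α : ℝ, R ≤ α → 0 < α → ∀ ε : ℝ, 0 < ε →
        ∀ᶠ T : ℝ in l, (Even (count Λ α) →
          IF α (α + ℓ) - K * Real.exp (-(c * α)) - ε ≤ (N T α (α + ℓ) : ℝ) / X T) ∧
        (Odd (count Λ α) →
          (N T α (α + ℓ) : ℝ) / X T ≤ IF α (α + ℓ) + K * Real.exp (-(c * α)) + ε)) →
        N804.WB l ℓ Λ K c R := by
      intro Λ ℓ K c R h α hR hα ε hε
      have hcn : N804.cn Λ α = count Λ α := rfl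
      filter_upwards [h α hR hα ε hε, hN α (α + ℓ) hα] with T h1 h2
      rw [h2, hI] at h1
      rw [hcn]
      rcases Nat.even_or_odd (count Λ α) with he | ho
      · rw [he.neg_one_pow, one_mul]
        linarith [h1.1 he]
      · rw [ho.neg_one_pow]
        linarith [h1.2 ho]
    have hmain := (N804.two_lengths hl h₁ h₂ hirr h0' hd hΛ₁ hd hΛ₂ hc₁ hc₂
      (hW Λ₁ ℓ₁ K₁ c₁ R₁ hH₁) (hW Λ₂ ℓ₂ K₂ c₂ R₂ hH₂)).1
    intro α β hα hβ
    have hpos := N804.PP_strict hα.le hβ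
    have h2 := (N804.NW_tendsto' hl hmain hα hβ).div_const (N804.PP β - N804.PP α)
    rw [div_self hpos.ne'] at h2
    refine h2.congr' ?_
    filter_upwards [hN α β hα] with T hT
    rw [← hT, hI, div_div]

end Pool.Agent.Results.MP_8958e8_nt.TwoWindowLengths
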